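import Pool.Agent.Helper99.SC.Logic

/-!
# The map from lists of clauses to words of graphs is computable in polynomial time
-/

set_option autoImplicit false
set_option linter.all false

namespace Pool.Agent.Helper99.SC

open Pool.Agent.Helper96

section
variable {α : Type} [Enc α]

theorem poly_rst {k : α → ℕ} (hk : Poly k) : Poly (fun a => rst (k a)) := by
  unfold rst; fun_prop

theorem poly_cpr {k : α → ℕ} (hk : Poly k) : Poly (fun a => cpr (k a)) := by
  unfold cpr; fun_prop

theorem poly_cpl {k : α → ℕ} (hk : Poly k) : Poly (fun a => cpl (k a)) := by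
  unfold cpl; fun_prop

theorem poly_nnd {k : α → ℕ} (hk : Poly k) : Poly (fun a => nnd (k a)) := by
  unfold nnd; fun_prop

attribute [local irreducible] rst cpr cpl nnd
attribute [local fun_prop] poly_rst poly_cpr poly_cpl poly_nnd

theorem poly_xorm {k : α → ℕ} (hk : Poly k) : Poly (fun a => xorm (k a)) := by
  unfold xorm
  fun_prop

attribute [local irreducible] xorm
attribute [local fun_prop] poly_xorm

theorem poly_swp {k : α → ℕ} (hk : Poly k) : Poly (fun a => swp (k a)) := by
  unfold swp
  fun_prop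

theorem poly_orp {k : α → ℕ} (hk : Poly k) : Poly (fun a => orp (k a)) := by
  unfold orp
  fun_prop

theorem poly_orn {k : α → ℕ} (hk : Poly k) : Poly (fun a => orn (k a)) := by
  unfold orn
  fun_prop

theorem poly_ast {k : α → ℕ} (hk : Poly k) : Poly (fun a => ast (k a)) := by
  unfold ast
  fun_prop

attribute [local irreducible] swp orp orn ast
attribute [local fun_prop] poly_swp poly_orp poly_orn poly_ast

theorem poly_litOps {c : α → List (ℕ × Bool)} {j : α → ℕ} (hc : Poly c) (hj : Poly j) :
    Poly (fun a => litOps (c a) (j a)) := by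
  unfold litOps
  have h1 : Poly (fun a => orp (9 * j a)) := by fun_prop
  have h2 : Poly (fun a => orn (9 * j a)) := by fun_prop
  have h3 : Poly (fun a => swp (9 * j a)) := by fun_prop
  refine Poly.append (Poly.append ?_ ?_) h3
  · exact Poly.ite_decide (p := fun a => (j a, true) ∈ c a) (by fun_prop) h1
      (Helper96.Poly.const _)
  · exact Poly.ite_decide (p := fun a => (j a, false) ∈ c a) (by fun_prop) h2
      (Helper96.Poly.const _)

theorem poly_clauseOps {n : α → ℕ} {c : α → List (ℕ × Bool)} (hn : Poly n) (hc : Poly c) :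
    Poly (fun a => clauseOps (n a) (c a)) := by
  unfold clauseOps
  refine Poly.append (Poly.append (Poly.append ?_ ?_) ?_) ?_
  · exact Helper96.Poly.const _
  · exact Helper96.Poly.flatMap (h := fun a j => litOps (c a) j) (by fun_prop)
      (poly_litOps (by fun_prop) (by fun_prop))
  · exact poly_ast (by fun_prop)
  · exact Helper96.Poly.flatMap (h := fun a j => swp (9 * (n a - 1 - j))) (by fun_prop)
      (poly_swp (by fun_prop))

theorem poly_prog {n : α → ℕ} {c : α → List (List (ℕ × Bool))} (hn : Poly n) (hc : Poly c) :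
    Poly (fun a => prog (n a) (c a)) := by
  unfold prog
  exact Helper96.Poly.flatMap (h := fun a d => clauseOps (n a) d) hc
    (poly_clauseOps (by fun_prop) (by fun_prop))

theorem poly_opAt {f : α → List Op} {i : α → ℕ} (hf : Poly f) (hi : Poly i) :
    Poly (fun a => opAt (f a) (i a)) := by
  unfold opAt
  exact Poly.ite_decide (p := fun a => i a = 0) (by fun_prop) (Helper96.Poly.const _)
    (by fun_prop)

/-- a predicate is decidable in polynomial time -/
def PP1 (p : α → Prop) : Prop := ∃ d : ∀ a, Decidable (p a), Poly (fun a => @decide (p a) (d a))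

theorem PP1.and {p q : α → Prop} (hp : PP1 p) (hq : PP1 q) : PP1 (fun a => p a ∧ q a) := by
  obtain ⟨d, hd⟩ := hp
  obtain ⟨e, he⟩ := hq
  exact ⟨fun a => inferInstance, Poly.decide_and hd he⟩

theorem PP1.or {p q : α → Prop} (hp : PP1 p) (hq : PP1 q) : PP1 (fun a => p a ∨ q a) := by
  obtain ⟨d, hd⟩ := hp
  obtain ⟨e, he⟩ := hq
  exact ⟨fun a => inferInstance, Poly.decide_or hd he⟩

theorem PP1.not {p : α → Prop} (hp : PP1 p) : PP1 (fun a => ¬ p a) := by
  obtain ⟨d, hd⟩ := hp
  exact ⟨fun a => inferInstance, Poly.decide_not hd⟩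

theorem PP1.eq {β : Type} [Enc β] [DecidableEq β] {f g : α → β} (hf : Poly f) (hg : Poly g) :
    PP1 (fun a => f a = g a) :=
  ⟨fun a => inferInstance, Poly.decide_eq hf hg⟩

theorem PP1.ne {β : Type} [Enc β] [DecidableEq β] {f g : α → β} (hf : Poly f) (hg : Poly g) :
    PP1 (fun a => f a ≠ g a) := (PP1.eq hf hg).not

theorem PP1.le {f g : α → ℕ} (hf : Poly f) (hg : Poly g) : PP1 (fun a => f a ≤ g a) :=
  ⟨fun a => inferInstance, Poly.decide_le hf hg⟩

theorem PP1.lt {f g : α → ℕ} (hf : Poly f) (hg : Poly g) : PP1 (fun a => f a < g a) :=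
  ⟨fun a => inferInstance, Poly.decide_lt hf hg⟩

theorem PP1.poly {p : α → Prop} (hp : PP1 p) (d : ∀ a, Decidable (p a)) :
    Poly (fun a => @decide (p a) (d a)) := by
  obtain ⟨e, he⟩ := hp
  exact Poly.decide_congr (fun a => Iff.rfl) he

attribute [local irreducible] opAt
attribute [local fun_prop] poly_opAt

theorem pp_isTT {f : α → List Op} {t : α → Pl} (hf : Poly f) (ht : Poly t) :
    PP1 (fun a => IsTT (f a) (t a)) := by
  unfold IsTT
  repeat' first
    | refine PP1.and ?_ ?_
    | refine PP1.or ?_ ?_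
    | refine PP1.not ?_
    | exact PP1.le (by fun_prop) (by fun_prop)
    | exact PP1.lt (by fun_prop) (by fun_prop)
    | exact PP1.eq (by fun_prop) (by fun_prop)
    | exact PP1.ne (by fun_prop) (by fun_prop)

theorem pp_HR {f : α → List Op} {s t : α → Pl} (hf : Poly f) (hs : Poly s) (ht : Poly t) :
    PP1 (fun a => HR (f a) (s a) (t a)) := by
  have hTT : PP1 (fun a => IsTT (f a) (t a)) := pp_isTT hf ht
  unfold HR
  repeat' first
    | exact hTT
    | refine PP1.and ?_ ?_
    | refine PP1.or ?_ ?_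
    | refine PP1.not ?_
    | exact PP1.le (by fun_prop) (by fun_prop)
    | exact PP1.lt (by fun_prop) (by fun_prop)
    | exact PP1.eq (by fun_prop) (by fun_prop)
    | exact PP1.ne (by fun_prop) (by fun_prop)

theorem pp_HY {f : α → List Op} {s t : α → Pl} (hf : Poly f) (hs : Poly s) (ht : Poly t) :
    PP1 (fun a => HY (f a) (s a) (t a)) := by
  have hTT : PP1 (fun a => IsTT (f a) (t a)) := pp_isTT hf ht
  unfold HY
  repeat' first
    | exact hTT
    | refine PP1.and ?_ ?_
    | refine PP1.or ?_ ?_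
    | refine PP1.not ?_
    | exact PP1.le (by fun_prop) (by fun_prop)
    | exact PP1.lt (by fun_prop) (by fun_prop)
    | exact PP1.eq (by fun_prop) (by fun_prop)
    | exact PP1.ne (by fun_prop) (by fun_prop)

theorem pp_HT {f : α → List Op} {s t : α → Pl} (hf : Poly f) (hs : Poly s) (ht : Poly t) :
    PP1 (fun a => HT (f a) (s a) (t a)) := by
  have hTT : PP1 (fun a => IsTT (f a) (t a)) := pp_isTT hf ht
  unfold HT
  repeat' first
    | exact hTT
    | refine PP1.and ?_ ?_
    | refine PP1.or ?_ ?_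
    | refine PP1.not ?_
    | exact PP1.le (by fun_prop) (by fun_prop)
    | exact PP1.lt (by fun_prop) (by fun_prop)
    | exact PP1.eq (by fun_prop) (by fun_prop)
    | exact PP1.ne (by fun_prop) (by fun_prop)

theorem pp_HP {f : α → List Op} {s t : α → Pl} (hf : Poly f) (hs : Poly s) (ht : Poly t) :
    PP1 (fun a => HP (f a) (s a) (t a)) := by
  have hTT : PP1 (fun a => IsTT (f a) (t a)) := pp_isTT hf ht
  unfold HP
  repeat' first
    | exact hTT
    | refine PP1.and ?_ ?_
    | refine PP1.or ?_ ?_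
    | refine PP1.not ?_
    | exact PP1.le (by fun_prop) (by fun_prop)
    | exact PP1.lt (by fun_prop) (by fun_prop)
    | exact PP1.eq (by fun_prop) (by fun_prop)
    | exact PP1.ne (by fun_prop) (by fun_prop)

theorem pp_HD {f : α → List Op} {s t : α → Pl} (hf : Poly f) (hs : Poly s) (ht : Poly t) :
    PP1 (fun a => HD (f a) (s a) (t a)) := by
  have hTT : PP1 (fun a => IsTT (f a) (t a)) := pp_isTT hf ht
  unfold HD
  repeat' first
    | exact hTT
    | refine PP1.and ?_ ?_
    | refine PP1.or ?_ ?_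
    | refine PP1.not ?_
    | exact PP1.le (by fun_prop) (by fun_prop)
    | exact PP1.lt (by fun_prop) (by fun_prop)
    | exact PP1.eq (by fun_prop) (by fun_prop)
    | exact PP1.ne (by fun_prop) (by fun_prop)

theorem pp_HH {f : α → List Op} {s t : α → Pl} (hf : Poly f) (hs : Poly s) (ht : Poly t) :
    PP1 (fun a => HH (f a) (s a) (t a)) := by
  unfold HH
  exact (pp_HR hf hs ht).or ((pp_HY hf hs ht).or ((pp_HT hf hs ht).or
    ((pp_HP hf hs ht).or (pp_HD hf hs ht))))

theorem poly_verts {K L : α → ℕ} (hK : Poly K) (hL : Poly L) :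
    Poly (fun a => verts (K a) (L a)) := by
  unfold verts
  refine Helper96.Poly.flatMap (h := fun a i => (List.range 4).flatMap fun ρ =>
    (List.range (K a)).flatMap fun κ => (List.range 64).map fun m => (i, ρ, κ, m))
    (by fun_prop) ?_
  refine Helper96.Poly.flatMap (h := fun (q : α × ℕ) ρ =>
    (List.range (K q.1)).flatMap fun κ => (List.range 64).map fun m => (q.2, ρ, κ, m))
    (Helper96.Poly.const _) ?_
  refine Helper96.Poly.flatMap (h := fun (q : (α × ℕ) × ℕ) κ =>
    (List.range 64).map fun m => (q.1.2, q.2, κ, m)) (by fun_prop) ?_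
  exact Helper96.Poly.map (h := fun (q : ((α × ℕ) × ℕ) × ℕ) m => (q.1.1.2, q.1.2, q.2, m))
    (Helper96.Poly.const _) (by fun_prop)

theorem poly_vnum {K : α → ℕ} {v : α → ℕ × ℕ × ℕ × ℕ} (hK : Poly K) (hv : Poly v) :
    Poly (fun a => vnum (K a) (v a)) := by
  unfold vnum
  fun_prop

theorem poly_vpl {K l : α → ℕ} {v : α → ℕ × ℕ × ℕ × ℕ} (hK : Poly K) (hv : Poly v)
    (hl : Poly l) : Poly (fun a => vpl (K a) (v a) (l a)) := by
  unfold vpl
  have h : Poly (fun a => if (v a).2.1 = 1 ∨ (v a).2.1 = 3 then K a - 1 - (v a).2.2.1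
      else (v a).2.2.1) :=
    Poly.ite_decide (p := fun a => (v a).2.1 = 1 ∨ (v a).2.1 = 3)
      (((PP1.eq (by fun_prop) (by fun_prop)).or (PP1.eq (by fun_prop) (by fun_prop))).poly _)
      (by fun_prop) (by fun_prop)
  fun_prop

attribute [local irreducible] vnum vpl verts
attribute [local fun_prop] poly_vnum poly_vpl poly_verts

theorem poly_vadj {K : α → ℕ} {f : α → List Op} {v w : α → ℕ × ℕ × ℕ × ℕ} (hK : Poly K)
    (hf : Poly f) (hv : Poly v) (hw : Poly w) :
    Poly (fun a => vadj (K a) (f a) (v a) (w a)) := by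
  unfold vadj
  have h1 : Poly (fun a => decide (vnum (K a) (v a) + 1 = vnum (K a) (w a))) :=
    Poly.decide_eq (by fun_prop) (by fun_prop)
  have h2 : Poly (fun a => decide (vnum (K a) (w a) + 1 = vnum (K a) (v a))) :=
    Poly.decide_eq (by fun_prop) (by fun_prop)
  have h3 : Poly (fun a => decide (vnum (K a) (v a) = 0)) :=
    Poly.decide_eq (by fun_prop) (by fun_prop)
  have h4 : Poly (fun a => decide (vnum (K a) (w a) + 1 = ((f a).length + 2) * 4 * K a * 64)) :=
    Poly.decide_eq (by fun_prop) (by fun_prop)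
  have h5 : Poly (fun a => decide (vnum (K a) (w a) = 0)) :=
    Poly.decide_eq (by fun_prop) (by fun_prop)
  have h6 : Poly (fun a => decide (vnum (K a) (v a) + 1 = ((f a).length + 2) * 4 * K a * 64)) :=
    Poly.decide_eq (by fun_prop) (by fun_prop)
  refine Poly.or (Poly.or (Poly.or (Poly.or h1 h2) (Poly.and h3 h4)) (Poly.and h5 h6)) ?_
  refine Helper96.Poly.any (h := fun a l => (List.range 16).any fun l' =>
      decide ((v a).2.2.2 = 4 * l + 2) && decide ((w a).2.2.2 = 4 * l' + 2) &&
        (decide (HH (f a) (vpl (K a) (v a) l) (vpl (K a) (w a) l')) ||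
          decide (HH (f a) (vpl (K a) (w a) l') (vpl (K a) (v a) l))))
      (Helper96.Poly.const _) ?_
  refine Helper96.Poly.any (h := fun (q : α × ℕ) l' =>
      decide ((v q.1).2.2.2 = 4 * q.2 + 2) && decide ((w q.1).2.2.2 = 4 * l' + 2) &&
        (decide (HH (f q.1) (vpl (K q.1) (v q.1) q.2) (vpl (K q.1) (w q.1) l')) ||
          decide (HH (f q.1) (vpl (K q.1) (w q.1) l') (vpl (K q.1) (v q.1) q.2))))
      (Helper96.Poly.const _) ?_
  refine Poly.and (Poly.and (Poly.decide_eq (by fun_prop) (by fun_prop))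
    (Poly.decide_eq (by fun_prop) (by fun_prop))) (Poly.or ?_ ?_)
  · exact (pp_HH (by fun_prop) (by fun_prop) (by fun_prop)).poly _
  · exact (pp_HH (by fun_prop) (by fun_prop) (by fun_prop)).poly _

theorem poly_gword {K : α → ℕ} {f : α → List Op} (hK : Poly K) (hf : Poly f) :
    Poly (fun a => gword (K a) (f a)) := by
  unfold gword
  refine Poly.append (Helper96.Poly.replicate (by fun_prop) (by fun_prop)) (Poly.cons
    (by fun_prop) ?_)
  refine Helper96.Poly.flatMap (h := fun a v => (verts (K a) (f a).length).map fun w =>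
    vadj (K a) (f a) v w) (by fun_prop) ?_
  exact Helper96.Poly.map (h := fun (q : α × (ℕ × ℕ × ℕ × ℕ)) w => vadj (K q.1) (f q.1) q.2 w)
    (by fun_prop) (poly_vadj (by fun_prop) (by fun_prop) (by fun_prop) (by fun_prop))

end

/-- MODULE SL5. -/
theorem sl_poly : M_poly := by
  unfold M_poly
  exact poly_gword (by fun_prop) (poly_prog (by fun_prop) (by fun_prop))

end Pool.Agent.Helper99.SC
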