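import Mathlib

/-!
# Characters of uniform ultrafilters over strong limit singular cardinals
-/

set_option autoImplicit false

namespace Pool.Agent.Helper97.SC

universe u

open Cardinal Set

variable {α : Type u}

/-- `B` is a base of the ultrafilter `W`. -/
def IsBase (W : Ultrafilter α) (B : Set (Set α)) : Prop :=
  (∀ b ∈ B, b ∈ W) ∧ ∀ a ∈ W, ∃ b ∈ B, b ⊆ a

/-- The character of an ultrafilter: the least cardinality of a base. -/
noncomputable def Ch (W : Ultrafilter α) : Cardinal.{u} :=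
  sInf {c | ∃ B : Set (Set α), IsBase W B ∧ #B = c}

/-- An ultrafilter is uniform if all its members have the size of the whole set. -/
def Uniform (W : Ultrafilter α) : Prop := ∀ a ∈ W, #a = #α

/-- `W` is `ν`-decomposable: some map into a set of size `ν` has an image of size `ν` on every
member of `W`. -/
def Decomposable (W : Ultrafilter α) (ν : Cardinal.{u}) : Prop :=
  ∃ (β : Type u) (f : α → β), #β = ν ∧ ∀ a ∈ W, #(f '' a) = ν

theorem exists_base (W : Ultrafilter α) : ∃ B : Set (Set α), IsBase W B ∧ #B = Ch W := by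
  have hne : {c : Cardinal.{u} | ∃ B : Set (Set α), IsBase W B ∧ #B = c}.Nonempty :=
    ⟨_, {a | a ∈ W}, ⟨fun b hb => hb, fun a ha => ⟨a, ha, Subset.rfl⟩⟩, rfl⟩
  exact csInf_mem hne

theorem Ch_le {W : Ultrafilter α} {B : Set (Set α)} (h : IsBase W B) : Ch W ≤ #B :=
  csInf_le' ⟨B, h, rfl⟩

theorem small_range {W : Ultrafilter α} {μ ρ : Cardinal.{u}}
    (hind : ∀ ν, μ < ν → ν ≤ ρ → ¬ Decomposable W ν) {β : Type u} (f : α → β) (hβ : #β ≤ ρ) :
    ∃ a ∈ W, #(f '' a) ≤ μ := by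
  set S : Set Cardinal.{u} := {c | ∃ a ∈ W, #(f '' a) = c} with hS
  have hne : S.Nonempty := ⟨_, univ, Filter.univ_mem, rfl⟩
  obtain ⟨a0, ha0, h0⟩ := csInf_mem hne
  by_contra hno
  push Not at hno
  have h1 : μ < sInf S := by rw [← h0]; exact hno a0 ha0
  have h2 : sInf S ≤ ρ := by rw [← h0]; exact (mk_set_le _).trans hβ
  refine hind _ h1 h2 ?_
  obtain ⟨x0, hx0⟩ := W.nonempty_of_mem ha0
  classical
  refine ⟨f '' a0, fun x => if h : x ∈ a0 then ⟨f x, x, h, rfl⟩ else ⟨f x0, x0, hx0, rfl⟩, h0, ?_⟩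
  intro a ha
  apply le_antisymm
  · rw [← h0]; exact mk_set_le _
  · have h3 : sInf S ≤ #(f '' (a ∩ a0)) := csInf_le' ⟨a ∩ a0, Filter.inter_mem ha ha0, rfl⟩
    refine h3.trans ?_
    refine mk_le_of_injective (f := fun y : f '' (a ∩ a0) =>
      (⟨⟨y.1, by obtain ⟨x, hx, he⟩ := y.2; exact ⟨x, hx.2, he⟩⟩, by
        obtain ⟨x, hx, he⟩ := y.2
        refine ⟨x, hx.1, ?_⟩
        simp only [hx.2, dif_pos, he]⟩ : (fun x => if h : x ∈ a0 then (⟨f x, x, h, rfl⟩ : f '' a0)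
          else ⟨f x0, x0, hx0, rfl⟩) '' a)) ?_
    intro y y' h
    have := congrArg (fun z => ((z.1 : f '' a0) : β)) h
    exact Subtype.ext this

/-- After Silver: if `W` is indecomposable between `μ` and `2 ^ μ⁺`, then all maps into sets of size
at most `μ` factor through one map into a set of size at most `2 ^ μ⁺`. -/
theorem silver {W : Ultrafilter α} {μ : Cardinal.{u}} (hμω : ℵ₀ ≤ μ)
    (hind : ∀ ν, μ < ν → ν ≤ 2 ^ Order.succ μ → ¬ Decomposable W ν) :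
    ∃ (T : Type u) (φ : α → T), #T ≤ 2 ^ Order.succ μ ∧ ∀ (β : Type u) (f : α → β), #β ≤ μ →
      ∃ a ∈ W, ∀ x ∈ a, ∀ y ∈ a, φ x = φ y → f x = f y := by
  by_contra hno
  push Not at hno
  obtain ⟨M, hM⟩ : ∃ M : Type u, #M = μ := ⟨μ.out, mk_out μ⟩
  have hstep : ∀ (T : Type u) (φ : α → T), #T ≤ 2 ^ Order.succ μ → ∃ g : α → M, ∀ a ∈ W, ∃ x ∈ a,
      ∃ y ∈ a, φ x = φ y ∧ g x ≠ g y := by
    intro T φ hT
    obtain ⟨β, f, hβ, hf⟩ := hno T φ hT
    rw [← hM] at hβ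
    obtain ⟨e⟩ := (le_def _ _).1 hβ
    refine ⟨fun x => e (f x), ?_⟩
    intro a ha
    obtain ⟨x, hx, y, hy, hxy, hne⟩ := hf a ha
    exact ⟨x, hx, y, hy, hxy, fun h => hne (e.injective h)⟩
  -- the recursion
  set I : Type u := (Order.succ μ).ord.ToType with hI
  have hcI : #I = Order.succ μ := by rw [hI, mk_ord_toType]
  have hIio : ∀ ξ : I, #{ζ // ζ < ξ} ≤ Order.succ μ := by
    intro ξ
    have := mk_le_of_injective (f := fun ζ : {ζ // ζ < ξ} => ζ.1) Subtype.val_injective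
    rwa [hcI] at this
  have hpow : ∀ (X : Type u), #X ≤ Order.succ μ → #(X → M) ≤ 2 ^ Order.succ μ := by
    intro X hX
    have h1 : #(X → M) = μ ^ #X := by rw [← hM]; simp
    rw [h1]
    have h2 : μ ^ #X ≤ 2 ^ (μ * #X) := by
      rw [power_mul]
      exact power_le_power_right (cantor μ).le
    refine h2.trans (power_le_power_left two_ne_zero ?_)
    have hs : ℵ₀ ≤ Order.succ μ := hμω.trans (Order.le_succ μ)
    exact (mul_le_mul' (Order.le_succ μ) hX).trans (mul_eq_self hs).le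
  have hwf : WellFounded ((· < ·) : I → I → Prop) := wellFounded_lt
  set G : I → (α → M) := hwf.fix (fun ξ ih => Classical.choose
    (hstep ({ζ // ζ < ξ} → M) (fun x ζ => ih ζ.1 ζ.2 x) (hpow _ (hIio ξ)))) with hG
  have hGs : ∀ ξ : I, ∀ a ∈ W, ∃ x ∈ a, ∃ y ∈ a, (∀ ζ < ξ, G ζ x = G ζ y) ∧ G ξ x ≠ G ξ y := by
    intro ξ a ha
    have h1 : G ξ = Classical.choose (hstep ({ζ // ζ < ξ} → M) (fun x ζ => G ζ.1 x)
        (hpow _ (hIio ξ))) := by
      rw [hG]
      exact hwf.fix_eq _ ξ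
    have h2 := Classical.choose_spec (hstep ({ζ // ζ < ξ} → M) (fun x ζ => G ζ.1 x)
        (hpow _ (hIio ξ)))
    rw [← h1] at h2
    obtain ⟨x, hx, y, hy, hxy, hne⟩ := h2 a ha
    exact ⟨x, hx, y, hy, fun ζ hζ => congrFun hxy ⟨ζ, hζ⟩, hne⟩
  obtain ⟨a, ha, haμ⟩ := small_range hind (fun x (ξ : I) => G ξ x) (hpow I hcI.le)
  choose X hX Y hY hXY hne using fun ξ => hGs ξ a ha
  have hinj : Function.Injective (fun ξ : I => ((⟨fun ζ => G ζ (X ξ), X ξ, hX ξ, rfl⟩,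
      ⟨fun ζ => G ζ (Y ξ), Y ξ, hY ξ, rfl⟩) :
      ((fun x (ξ : I) => G ξ x) '' a) × ((fun x (ξ : I) => G ξ x) '' a))) := by
    have key : ∀ ξ ξ' : I, ξ < ξ' → (fun ζ => G ζ (X ξ)) = (fun ζ => G ζ (X ξ')) →
        (fun ζ => G ζ (Y ξ)) = (fun ζ => G ζ (Y ξ')) → False := by
      intro ξ ξ' hlt h1 h2
      apply hne ξ
      rw [congrFun h1 ξ, congrFun h2 ξ]
      exact hXY ξ' ξ hlt
    intro ξ ξ' h
    have h1 := congrArg (fun z => z.1.1) h
    have h2 := congrArg (fun z => z.2.1) h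
    simp only at h1 h2
    rcases lt_trichotomy ξ ξ' with hlt | heq | hlt
    · exact (key ξ ξ' hlt h1 h2).elim
    · exact heq
    · exact (key ξ' ξ hlt h1.symm h2.symm).elim
  have hle := mk_le_of_injective hinj
  rw [hcI, mk_prod, lift_id] at hle
  have h4 : #((fun x (ξ : I) => G ξ x) '' a) * #((fun x (ξ : I) => G ξ x) '' a) ≤ μ :=
    (mul_le_mul' haμ haμ).trans (mul_eq_self hμω).le
  exact absurd (hle.trans h4) (not_le.2 (Order.lt_succ μ))

/-- the character of a uniform ultrafilter over a strong limit cardinal is at least this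
cardinal -/
theorem card_le_Ch {W : Ultrafilter α} (hl : (#α).IsStrongLimit) (hU : Uniform W) :
    #α ≤ Ch W := by
  obtain ⟨B, hB, hBc⟩ := exists_base W
  by_contra hlt
  push Not at hlt
  rw [← hBc] at hlt
  -- the atoms of the base
  set F : α → Set B := fun x => {b | x ∈ b.1} with hF
  have hFc : #(Set B) < #α := by
    rw [mk_set]
    exact hl.isStrongPrelimit hlt
  classical
  -- a selector
  set Y : Set α := {x | ∃ h : ∃ y, F y = F x, x = h.choose} with hY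
  have hsel : ∀ x ∈ Y, ∀ y ∈ Y, F x = F y → x = y := by
    rintro x ⟨h, hx⟩ y ⟨h', hy⟩ he
    rw [hx, hy]
    congr 1
    funext z
    rw [he]
  have hex : ∀ x, ∃ y ∈ Y, F y = F x := by
    intro x
    have h : ∃ y, F y = F x := ⟨x, rfl⟩
    refine ⟨h.choose, ⟨⟨h.choose, rfl⟩, ?_⟩, h.choose_spec⟩
    congr 1
    funext z
    rw [h.choose_spec]
  have hYc : #Y < #α := by
    refine lt_of_le_of_lt (mk_le_of_injective (f := fun x : Y => F x.1) ?_) hFc
    intro x y h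
    exact Subtype.ext (hsel _ x.2 _ y.2 h)
  rcases Ultrafilter.mem_or_compl_mem W Y with hW | hW
  · exact absurd (hU Y hW) hYc.ne
  · obtain ⟨b, hb, hbY⟩ := hB.2 _ hW
    obtain ⟨x, hx⟩ := W.nonempty_of_mem (hB.1 b hb)
    obtain ⟨y, hy, hyx⟩ := hex x
    have : y ∈ b := by
      have h1 : (⟨b, hb⟩ : B) ∈ F x := hx
      rw [← hyx] at h1
      exact h1
    exact hbY this hy

/-- The main theorem: the ultrafilter is decomposable between `μ` and `2 ^ μ⁺` for every `μ` above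
`2 ^ cf (Ch W)`. -/
theorem decomposable_of_cof {W : Ultrafilter α} {μ : Cardinal.{u}} (hl : (#α).IsStrongLimit)
    (hs : (#α).IsSingular) (hU : Uniform W) (hμ : μ < #α) (hθμ : 2 ^ (Ch W).ord.cof ≤ μ) :
    ∃ ν, μ < ν ∧ ν ≤ 2 ^ Order.succ μ ∧ Decomposable W ν := by
  have hω : ℵ₀ < #α := by
    refine lt_of_le_of_ne hs.aleph0_le fun h => ?_
    rw [← h] at hs
    exact not_isSingular_aleph0 hs
  have hαχ : #α ≤ Ch W := card_le_Ch hl hU
  have hχω : ℵ₀ ≤ Ch W := hω.le.trans hαχ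
  have hlim : Order.IsSuccLimit (Ch W).ord := isSuccLimit_ord hχω
  have hμω : ℵ₀ ≤ μ := by
    have h1 : ℵ₀ ≤ (Ch W).ord.cof := (isRegular_cof hlim).aleph0_le
    exact h1.trans ((cantor _).le.trans hθμ)
  have hsucc : Order.succ μ < #α :=
    (Order.succ_le_of_lt (cantor μ)).trans_lt (hl.isStrongPrelimit hμ)
  by_contra hno
  push Not at hno
  obtain ⟨T, φ, hT, hφ⟩ := silver hμω hno
  have hT : #T < #α := hT.trans_lt (hl.isStrongPrelimit hsucc)
  obtain ⟨B, hB, hBc⟩ := exists_base W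
  -- the pieces of the base
  have hBe : #B = #((Ch W).ord.ToType) := by rw [hBc, mk_ord_toType]
  obtain ⟨e⟩ := Cardinal.eq.1 hBe
  obtain ⟨S, hScof, hSc⟩ := Order.exists_cof_eq (α := (Ch W).ord.ToType)
  rw [Ordinal.cof_toType] at hSc
  set cl : S → Set (Set α) := fun s => {c | ∃ b : B, e b ≤ s.1 ∧ ∃ C : Set T, c = b.1 ∩ φ ⁻¹' C}
    with hcl
  have hclc : ∀ s, #(cl s) < Ch W := by
    intro s
    have h1 : #{b : B // e b ≤ s.1} < Ch W := by
      have h2 : #{b : B // e b ≤ s.1} = #(Iic s.1) := by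
        refine Cardinal.mk_congr (e.subtypeEquiv fun b => Iff.rfl)
      rw [h2]
      have h4 : Iic s.1 = insert s.1 (Iio s.1) := by
        rw [Iio_insert]
      rw [h4]
      refine (mk_insert_le).trans_lt ?_
      refine add_lt_of_lt hχω ?_ (one_lt_aleph0.trans_le hχω)
      have h5 := mk_Iio_lt s.1 (by rw [mk_ord_toType]; simp)
      rwa [mk_ord_toType] at h5
    have h3 : #(cl s) ≤ #({b : B // e b ≤ s.1} × Set T) := by
      refine mk_le_of_surjective (f := fun p : {b : B // e b ≤ s.1} × Set T =>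
        (⟨p.1.1.1 ∩ φ ⁻¹' p.2, p.1.1, p.1.2, p.2, rfl⟩ : cl s)) ?_
      rintro ⟨c, b, hb, C, rfl⟩
      exact ⟨(⟨b, hb⟩, C), rfl⟩
    refine h3.trans_lt ?_
    rw [mk_prod, lift_id, lift_id, mk_set]
    exact mul_lt_of_lt hχω h1 ((hl.isStrongPrelimit hT).trans_le hαχ)
  have hA : ∀ s, ∃ A ∈ W, ∀ c ∈ cl s, c ∈ W → ¬ c ⊆ A := by
    intro s
    by_contra hno
    push Not at hno
    have hbase : IsBase W {c | c ∈ cl s ∧ c ∈ W} := by
      refine ⟨fun c hc => hc.2, fun A hA => ?_⟩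
      obtain ⟨c, hc, hcW, hcA⟩ := hno A hA
      exact ⟨c, ⟨hc, hcW⟩, hcA⟩
    have h1 := Ch_le hbase
    have h2 : #{c | c ∈ cl s ∧ c ∈ W} ≤ #(cl s) := mk_le_mk_of_subset fun c hc => hc.1
    exact absurd (h1.trans h2) (not_le.2 (hclc s))
  choose A hAW hA using hA
  obtain ⟨D, hD, hDf⟩ := hφ (Set S) (fun x => {s | x ∈ A s}) (by
    rw [mk_set, hSc]
    exact hθμ)
  obtain ⟨b, hb, hbD⟩ := hB.2 D hD
  obtain ⟨s, hs', hbs⟩ := hScof (e ⟨b, hb⟩)
  set C : Set T := {t | ∃ y ∈ D, y ∈ A ⟨s, hs'⟩ ∧ φ y = t} with hC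
  refine hA ⟨s, hs'⟩ (b ∩ φ ⁻¹' C) ⟨⟨b, hb⟩, hbs, C, rfl⟩ ?_ ?_
  · refine Filter.mem_of_superset (Filter.inter_mem (hB.1 b hb) (hAW ⟨s, hs'⟩)) ?_
    rintro x ⟨hx1, hx2⟩
    exact ⟨hx1, x, hbD hx1, hx2, rfl⟩
  · rintro x ⟨hx1, y, hy, hyA, hyx⟩
    have h1 := hDf y hy x (hbD hx1) hyx
    have h2 : (⟨s, hs'⟩ : S) ∈ {s | y ∈ A s} := hyA
    rw [h1] at h2
    exact h2

theorem lt_cof {W : Ultrafilter α} (hl : (#α).IsStrongLimit) (hs : (#α).IsSingular)
    (hU : Uniform W) (hind : ∀ ρ < #α, ∃ μ, ρ ≤ μ ∧ μ < #α ∧ ∀ ν, μ < ν → ν ≤ 2 ^ Order.succ μ →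
      ¬ Decomposable W ν) : #α < (Ch W).ord.cof := by
  by_contra hle
  push Not at hle
  have hαχ : #α ≤ Ch W := card_le_Ch hl hU
  have hχω : ℵ₀ ≤ Ch W := hs.aleph0_le.trans hαχ
  have hlim : Order.IsSuccLimit (Ch W).ord := isSuccLimit_ord hχω
  have hθ : (Ch W).ord.cof < #α := by
    refine lt_of_le_of_ne hle fun h => ?_
    have := isRegular_cof hlim
    rw [h] at this
    exact hs.not_isRegular this
  obtain ⟨μ, h1, h2, h3⟩ := hind _ (hl.isStrongPrelimit hθ)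
  obtain ⟨ν, h4, h5, h6⟩ := decomposable_of_cof hl hs hU h2 h1
  exact h3 ν h4 h5 h6

theorem aleph_le_of_lt_cof {κ lam : Cardinal.{u}} (hκ : κ.IsSingular) (hle : lam ≤ κ)
    (hcof : lam < κ.ord.cof) (β : Ordinal.{u}) (hβ : lam = aleph β) :
    aleph (β + (Order.succ lam).ord) ≤ κ := by
  obtain ⟨γ, hγ⟩ := mem_range_aleph_iff.2 hκ.aleph0_le
  rw [← hγ] at hκ hcof hle ⊢
  rw [aleph_le_aleph]
  have hγlim := hκ.isSuccLimit_of_aleph
  have hβγ : β ≤ γ := by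
    rw [hβ, aleph_le_aleph] at hle
    exact hle
  obtain ⟨δ, rfl⟩ := exists_add_of_le hβγ
  have hc1 : (aleph (β + δ)).ord.cof = (β + δ).cof := by
    rw [ord_aleph]
    exact Ordinal.cof_map_of_isNormal Ordinal.isNormal_omega hγlim
  have hδ0 : δ ≠ 0 := by
    rintro rfl
    rw [add_zero] at hcof
    rw [hβ] at hcof
    exact absurd (hcof.trans_le (Ordinal.cof_ord_le _)) (lt_irrefl _)
  have hc2 : (β + δ).cof = δ.cof := Ordinal.cof_add β hδ0
  rw [hc1, hc2] at hcof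
  have h1 : (Order.succ lam).ord ≤ δ :=
    (ord_le_ord.2 (Order.succ_le_of_lt hcof)).trans (Ordinal.ord_cof_le δ)
  exact add_le_add_right h1 β

end Pool.Agent.Helper97.SC
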